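import Pool.Agent.H.MP_61e712_co.Defs

set_option autoImplicit false

namespace Pool.Agent.H.MP_61e712_co

open Finset

theorem cs {α β : Type} [DecidableEq β] (S : Finset α) (T : Finset β) (φ : α → β)
    (h : ∀ a ∈ S, φ a ∈ T) :
    S.card ^ 2 ≤ T.card * ((S ×ˢ S).filter fun p => φ p.1 = φ p.2).card := by
  rw [card_eq_sum_card_fiberwise h, card_eq_sum_card_fiberwise
    (s := (S ×ˢ S).filter fun p => φ p.1 = φ p.2) (t := T) (f := fun p => φ p.1)
    (fun p hp => h _ (mem_product.1 (mem_filter.1 hp).1).1)]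
  refine sq_sum_le_card_mul_sum_sq.trans (Nat.mul_le_mul_left _ (sum_le_sum fun t _ => ?_))
  rw [sq, ← card_product]
  refine card_le_card fun p hp => ?_
  simp only [mem_product, mem_filter] at hp ⊢
  exact ⟨⟨⟨hp.1.1, hp.2.1⟩, hp.1.2.trans hp.2.2.symm⟩, hp.1.2⟩

noncomputable def B (L : ℕ) : Finset (ℤ × ℤ) := Ico (0 : ℤ) L ×ˢ Ico (0 : ℤ) L

theorem card_B (L : ℕ) : (B L).card = L ^ 2 := by simp [B, sq]

open Classical in
noncomputable def E {n : ℕ} (f : Equiv.Perm (Fin n)) (L : ℕ) : Finset ((ℤ × ℤ) × (ℤ × ℤ)) :=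
  (B L ×ˢ B L).filter fun p => ∃ i j, i ≠ j ∧ vec f i j = p.1 - p.2

theorem vec_neg {n : ℕ} (f : Equiv.Perm (Fin n)) (i j : Fin n) : vec f j i = -vec f i j := by
  simp [vec]

theorem Costas.ne {n : ℕ} {f : Equiv.Perm (Fin n)} (hf : Costas f) {i j k l : Fin n} (h1 : i ≠ j)
    (h2 : k ≠ l) (e : vec f i j = vec f k l) : i = k ∧ j = l := by
  have e1 : ((j : ℕ) : ℤ) - (i : ℕ) = (l : ℕ) - (k : ℕ) := congrArg Prod.fst e
  rcases lt_or_gt_of_ne h1 with a | a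
  · exact hf i j k l a (by omega) e
  · exact (hf j i l k a (by omega) (by rw [vec_neg, e, ← vec_neg])).symm

theorem low {n : ℕ} {f : Equiv.Perm (Fin n)} (hf : Costas f) (L : ℕ) :
    (n * L ^ 2) ^ 2 ≤ (n + L) ^ 2 * ((E f L).card + n * L ^ 2) := by
  classical
  let S : Finset (Fin n × (ℤ × ℤ)) := univ ×ˢ B L
  have hS : S.card = n * L ^ 2 := by simp [S, card_B]
  have := cs S (B (n + L)) (fun p => ((((p.1 : ℕ) : ℤ), ((f p.1 : ℕ) : ℤ)) : ℤ × ℤ) + p.2) (by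
    rintro ⟨i, a, b⟩ h
    have := i.2
    have := (f i).2
    simp only [S, B, mem_product, mem_univ, mem_Ico, true_and, Prod.mk_add_mk] at h ⊢
    push_cast
    omega)
  rw [hS, card_B] at this
  refine this.trans (Nat.mul_le_mul_left _ ?_)
  rw [← card_filter_add_card_filter_not (fun p => p.1.1 ≠ p.2.1)]
  have key : ∀ (i j : Fin n) (a b : ℤ × ℤ), ((((i : ℕ) : ℤ), ((f i : ℕ) : ℤ)) : ℤ × ℤ) + a =
      (((j : ℕ) : ℤ), ((f j : ℕ) : ℤ)) + b → vec f i j = a - b := by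
    rintro i j ⟨a, a'⟩ ⟨b, b'⟩ h
    simp only [vec, Prod.mk_add_mk, Prod.mk.injEq, Prod.mk_sub_mk] at h ⊢
    omega
  refine Nat.add_le_add (card_le_card_of_injOn (fun p => (p.1.2, p.2.2)) ?_ ?_) ?_
  · rintro ⟨⟨i, a⟩, ⟨j, b⟩⟩ h
    simp only [S, coe_filter, mem_filter, mem_product, mem_univ, true_and, Set.mem_setOf_eq] at h
    simp only [E, coe_filter, mem_product, Set.mem_setOf_eq]
    exact ⟨h.1.1, i, j, h.2, key i j a b h.1.2⟩
  · rintro ⟨⟨i, a⟩, ⟨j, b⟩⟩ h ⟨⟨k, a'⟩, ⟨l, b'⟩⟩ h' e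
    simp only [S, coe_filter, mem_filter, mem_product, mem_univ, true_and, Set.mem_setOf_eq] at h h'
    simp only [Prod.mk.injEq] at e
    obtain ⟨rfl, rfl⟩ := e
    obtain ⟨rfl, rfl⟩ := hf.ne h.2 h'.2 ((key i j a b h.1.2).trans (key k l a b h'.1.2).symm)
    rfl
  · rw [← hS]
    refine card_le_card_of_injOn (fun p => p.1) ?_ ?_
    · intro p h
      simp only [coe_filter, mem_filter, mem_product, Set.mem_setOf_eq] at h
      exact h.1.1.1
    · rintro ⟨⟨i, a⟩, ⟨j, b⟩⟩ h ⟨⟨k, a'⟩, ⟨l, b'⟩⟩ h' e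
      simp only [S, coe_filter, mem_filter, mem_product, mem_univ, true_and, Set.mem_setOf_eq,
        not_not] at h h'
      simp only [Prod.mk.injEq] at e
      obtain ⟨rfl, rfl⟩ := e
      obtain ⟨⟨-, h1⟩, rfl⟩ := h
      obtain ⟨⟨-, h2⟩, rfl⟩ := h'
      rw [← add_left_cancel h1, ← add_left_cancel h2]

theorem up {m n : ℕ} {f : Equiv.Perm (Fin m)} {g : Equiv.Perm (Fin n)}
    (h : ∀ i j k l, i < j → k < l → vec f i j ≠ vec g k l) (L : ℕ) :
    (E f L).card + (E g L).card ≤ L ^ 4 := by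
  classical
  rw [← card_union_of_disjoint]
  · refine (card_le_card (union_subset (filter_subset _ _) (filter_subset _ _))).trans ?_
    rw [card_product, card_B]; exact le_of_eq (by ring)
  · rw [disjoint_left]
    intro p h1 h2
    obtain ⟨i, j, a, e⟩ := (mem_filter.1 h1).2
    obtain ⟨k, l, b, e'⟩ := (mem_filter.1 h2).2
    have e0 := e.trans e'.symm
    have e1 : ((j : ℕ) : ℤ) - (i : ℕ) = (l : ℕ) - (k : ℕ) := congrArg Prod.fst e0
    rcases lt_or_gt_of_ne a with a | a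
    · exact h i j k l a (by omega) e0
    · exact h j i l k a (by omega) (by rw [vec_neg, e0, ← vec_neg])

theorem lo2 {n L E a : ℝ} (hn : 0 < n) (hL : 0 < L) (h : (n * L ^ 2) ^ 2 ≤ (n + L) ^ 2 * (E + n * L ^ 2))
    (ha : a * (n + L) ^ 2 ≤ n ^ 2) : a * L ^ 4 ≤ E + n * L ^ 2 := by
  have h1 := mul_le_mul_of_nonneg_right ha (show 0 ≤ L ^ 4 by positivity)
  exact le_of_mul_le_mul_left (a := (n + L) ^ 2) (by linarith) (by positivity)

theorem num {s : ℝ} (s0 : 0 < s) (s1 : s < 1) : ∃ N : ℝ, ∀ m n : ℝ, N ≤ m → m ≤ n →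
    n ≤ s ^ 2 * m ^ 2 → ∃ L : ℕ, ∀ E E' : ℝ,
      (m * L ^ 2) ^ 2 ≤ (m + L) ^ 2 * (E + m * L ^ 2) →
      (n * L ^ 2) ^ 2 ≤ (n + L) ^ 2 * (E' + n * L ^ 2) → (L : ℝ) ^ 4 < E + E' := by
  obtain ⟨κ, hκ⟩ : ∃ κ, κ = 2 / (1 - s) := ⟨_, rfl⟩
  have k1 : κ * (1 - s) = 2 := by rw [hκ]; field_simp [(sub_pos.2 s1).ne']
  have k2 : 2 ≤ κ := by nlinarith
  obtain ⟨a, ha⟩ : ∃ a, a = 1 / (κ - 1 / 2) ^ 2 := ⟨_, rfl⟩
  obtain ⟨b, hb⟩ : ∃ b, b = 1 / κ ^ 2 := ⟨_, rfl⟩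
  have a1 : a * (κ - 1 / 2) ^ 2 = 1 := by
    have : κ - 1 / 2 ≠ 0 := by linarith
    rw [ha]; exact one_div_mul_cancel (pow_ne_zero 2 this)
  have b1 : b * κ ^ 2 = 1 := by rw [hb]; field_simp
  have b0 : 0 < b := by rw [hb]; positivity
  have ab : b < a := by
    rw [ha, hb]; exact one_div_lt_one_div_of_lt (by nlinarith) (by nlinarith)
  have a2 : a ≤ 1 := by nlinarith
  obtain ⟨u, hu⟩ : ∃ u, u = (a - b) / 4 := ⟨_, rfl⟩
  have u0 : 0 < u := by linarith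
  have u1 : u ≤ 1 / 4 := by linarith
  refine ⟨max ((2 * (κ + 1) / u) ^ 2) (max 4 (4 / u ^ 3)), fun m n h1 h2 h3 => ?_⟩
  rw [max_le_iff, max_le_iff] at h1
  obtain ⟨g1, g2, g3⟩ := h1
  have m0 : 0 < m := by linarith
  have n0 : 0 < n := by linarith
  obtain ⟨t, t0, ht⟩ : ∃ t, 0 ≤ t ∧ t ^ 2 = n := ⟨√n, Real.sqrt_nonneg _, Real.sq_sqrt n0.le⟩
  have t1 : t ≤ s * m := by
    refine (pow_le_pow_iff_left₀ t0 (by positivity) two_ne_zero).1 ?_
    rw [ht, mul_pow]; exact h3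
  have t2 : 2 * (κ + 1) / u ≤ t := (pow_le_pow_iff_left₀ (by positivity) t0 two_ne_zero).1 (by linarith)
  rw [div_le_iff₀ u0] at t2
  have t3 : 1 ≤ t := by nlinarith
  rw [div_le_iff₀ (by positivity)] at g3
  refine ⟨⌈κ * t + u / 2 * m⌉₊, fun E E' e1 e2 => ?_⟩
  have x0 : 0 ≤ κ * t := by positivity
  have x1 : 0 < u / 2 * m := by positivity
  have l1 := Nat.le_ceil (κ * t + u / 2 * m)
  have l2 := (Nat.ceil_lt_add_one (show 0 ≤ κ * t + u / 2 * m by linarith)).le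
  generalize (⌈κ * t + u / 2 * m⌉₊ : ℝ) = L at *
  have L0 : 0 < L := by linarith
  have c1 : L ≤ u * n := by
    have : u / 2 * m ≤ u / 2 * n := mul_le_mul_of_nonneg_left h2 (by linarith)
    have : 2 * (κ + 1) * t ≤ t * u * t := mul_le_mul_of_nonneg_right t2 t0
    nlinarith
  have c2 : m + L ≤ (κ - 1 / 2) * m := by
    have : κ * t ≤ κ * (s * m) := mul_le_mul_of_nonneg_left t1 (by linarith)
    have : u / 2 * m ≤ 1 / 8 * m := mul_le_mul_of_nonneg_right (by linarith) m0.le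
    have : κ * (1 - s) * m = 2 * m := by rw [k1]
    linarith
  have d1 := lo2 m0 L0 e1 (a := a) (by
    have := pow_le_pow_left₀ (by linarith) c2 2
    have := mul_le_mul_of_nonneg_left this (show 0 ≤ a by linarith)
    have e : a * ((κ - 1 / 2) * m) ^ 2 = a * (κ - 1 / 2) ^ 2 * m ^ 2 := by ring
    rw [e, a1] at this; linarith)
  have d2 := lo2 n0 L0 e2 (a := 1 - 2 * u) (by
    have h4 : n + L ≤ (1 + u) * n := by linarith
    have := pow_le_pow_left₀ (by linarith) h4 2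
    have := mul_le_mul_of_nonneg_left this (show 0 ≤ 1 - 2 * u by linarith)
    have h5 : (1 - 2 * u) * (1 + u) ^ 2 ≤ 1 := by nlinarith [sq_nonneg u, mul_pos u0 (mul_pos u0 u0)]
    have := mul_le_mul_of_nonneg_right h5 (sq_nonneg n)
    linarith)
  have c3 : n ≤ b * L ^ 2 := by
    have := pow_le_pow_left₀ x0 (show κ * t ≤ L by linarith) 2
    have := mul_le_mul_of_nonneg_left this b0.le
    have e : b * (κ * t) ^ 2 = b * κ ^ 2 * t ^ 2 := by ring
    rw [e, b1, ht] at this; linarith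
  have c4 : m ≤ u * L ^ 2 := by
    have := pow_le_pow_left₀ x1.le (show u / 2 * m ≤ L by linarith) 2
    have := mul_le_mul_of_nonneg_left this u0.le
    have := mul_le_mul_of_nonneg_right g3 m0.le
    linarith
  have f1 := mul_le_mul_of_nonneg_right c3 (sq_nonneg L)
  have f2 := mul_le_mul_of_nonneg_right c4 (sq_nonneg L)
  have f3 : 0 < u * L ^ 4 := by positivity
  have f4 : a * L ^ 4 = b * L ^ 4 + 4 * (u * L ^ 4) := by rw [hu]; ring
  linarith

end Pool.Agent.H.MP_61e712_co
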