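import Mathlib

set_option autoImplicit false

namespace Pool.Agent.H.MP_61e712_co

/-- the displacement vector from the dot in column `i` to the dot in column `j` -/
def vec {n : ℕ} (f : Equiv.Perm (Fin n)) (i j : Fin n) : ℤ × ℤ :=
  (((j : ℕ) : ℤ) - ((i : ℕ) : ℤ), ((f j : ℕ) : ℤ) - ((f i : ℕ) : ℤ))

/-- Costas permutation: the vectors for `i < j` are pairwise distinct -/
def Costas {n : ℕ} (f : Equiv.Perm (Fin n)) : Prop :=
  ∀ i j k l : Fin n, i < j → k < l → vec f i j = vec f k l → i = k ∧ j = l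

end Pool.Agent.H.MP_61e712_co
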